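import Pool.Agent.Helper38.GP.Pos4

/-! Equisingularity of the germs `∏ (y - w_k x ^ 2) = 0` in three variables along a curve in
`x = y = 0`, for `w_k` with different values at the origin. -/

namespace Pool.Agent.Helper49.SC

open MvPowerSeries Pool.Agent.Helper38.EQ Pool.Agent.Helper38.GP
open Pool.Agent.Helper38.ED (LI LI_iff prime_of_notMem_sq exists_eval discr_prod Rad
  isUnit_natCast_add isUnit_one_add)

section

variable {n : ℕ} {K : Type} [Field K]

/-- The components of `∏ (y - w_k x ^ 2) = 0`. -/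
noncomputable def qXY {R : Type} [CommRing R] {m : ℕ} (x y : R) (w : Fin m → R) (k : Fin m) : R :=
  y - w k * x ^ 2

theorem qXY_smooth {m : ℕ} {x y : MvPowerSeries (Fin n) K} (h : LI ![x, y])
    (w : Fin m → MvPowerSeries (Fin n) K) (i : Fin m) :
    qXY x y w i ∈ IsLocalRing.maximalIdeal (MvPowerSeries (Fin n) K) ∧
      qXY x y w i ∉ IsLocalRing.maximalIdeal (MvPowerSeries (Fin n) K) ^ 2 := by
  have hx : x ∈ IsLocalRing.maximalIdeal (MvPowerSeries (Fin n) K) := h.mem 0
  have hy : y ∈ IsLocalRing.maximalIdeal (MvPowerSeries (Fin n) K) := h.mem 1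
  unfold qXY
  have h3 : w i * x ^ 2 ∈ IsLocalRing.maximalIdeal (MvPowerSeries (Fin n) K) ^ 2 :=
    Ideal.mul_mem_left _ _ (Ideal.pow_mem_pow hx 2)
  refine ⟨Ideal.sub_mem _ hy (Ideal.pow_le_self two_ne_zero h3), fun h4 => ?_⟩
  have h5 := Ideal.add_mem _ h4 h3
  rw [sub_add_cancel] at h5
  exact h.notMem_sq 1 h5

theorem qXY_LI {m : ℕ} {x y : MvPowerSeries (Fin n) K} (h : LI ![x, y])
    (w : Fin m → MvPowerSeries (Fin n) K) (i : Fin m) : LI ![qXY x y w i, x] := by
  have h1 : x ∈ Ideal.span (Set.range ![qXY x y w i, x]) := Ideal.subset_span ⟨1, rfl⟩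
  have h2 : qXY x y w i ∈ Ideal.span (Set.range ![qXY x y w i, x]) := Ideal.subset_span ⟨0, rfl⟩
  refine LI.of_span h (fun j => ?_) (fun j => ?_)
  · fin_cases j
    · exact (qXY_smooth h w i).1
    · exact h.mem 0
  · fin_cases j
    · exact h1
    · change y ∈ _
      have h3 : qXY x y w i + w i * x * x = y := by
        unfold qXY
        ring
      have h4 := Ideal.add_mem _ h2 (Ideal.mul_mem_left _ (w i * x) h1)
      rwa [h3] at h4

/-- The critical variety of `∏ (y - w_k x ^ 2) = 0` is smooth: its equation is the restriction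
of `x` to the first component. -/
theorem calcQ {m : ℕ} (p : Proj n K) {x y : MvPowerSeries (Fin (n + 1)) K}
    (h : LI ![x, y]) (w : Fin (m + 2) → MvPowerSeries (Fin (n + 1)) K)
    (hw : ∀ k l, k ≠ l → IsUnit (w k - w l)) (s : ∀ i, Sec p (qXY x y w i)) :
    IsDisc s ((s 0).pull x) ∧
    (s 0).pull x ∈ IsLocalRing.maximalIdeal (R1 n K) ∧
    (s 0).pull x ∉ IsLocalRing.maximalIdeal (R1 n K) ^ 2 := by
  have hLI : LI ![(s 0).pull x] := by
    have h3 : LI (Fin.cons (qXY x y w 0) ![x] : Fin 2 → MvPowerSeries (Fin (n + 1)) K) :=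
      qXY_LI h w 0
    have h4 := (s 0).LI_pull ![x] h3
    have e : (fun i => (s 0).pull ((![x] : Fin 1 → MvPowerSeries (Fin (n + 1)) K) i)) =
        ![(s 0).pull x] := by
      funext i
      fin_cases i
      rfl
    rwa [e] at h4
  have h1 : (s 0).pull x ∈ IsLocalRing.maximalIdeal (R1 n K) := hLI.mem 0
  have h2 : (s 0).pull x ∉ IsLocalRing.maximalIdeal (R1 n K) ^ 2 := hLI.notMem_sq 0
  have hkl : ∀ k l, k ≠ l → Associated ((s k).pull (qXY x y w l)) ((s k).pull x ^ 2) := by
    intro k l hne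
    have e1 : (s k).pull y = (s k).pull (w k) * (s k).pull x ^ 2 := by
      have h5 : (s k).pull (y - w k * x ^ 2) = 0 := (s k).pull_self
      rw [map_sub, map_mul, map_pow, sub_eq_zero] at h5
      exact h5
    have e2 : (s k).pull (qXY x y w l) = (s k).pull (w k - w l) * (s k).pull x ^ 2 := by
      have h5 : (s k).pull (qXY x y w l) = (s k).pull (y - w l * x ^ 2) := rfl
      rw [h5, map_sub, map_mul, map_pow, e1, map_sub]
      ring
    rw [e2]
    exact associated_unit_mul_left _ _ ((hw k l hne).map (s k).pull)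
  have hsq : ∀ k, Associated ((s k).pull x ^ 2) ((s 0).pull x ^ 2) := by
    intro k
    by_cases hk : k = 0
    · rw [hk]
    · have a1 : Associated ((s k).pull (qXY x y w 0)) ((s k).r - (s 0).r) := (s k).assoc (s 0)
      have a2 : Associated ((s 0).pull (qXY x y w k)) ((s 0).r - (s k).r) := (s 0).assoc (s k)
      have a3 : Associated ((s k).r - (s 0).r) ((s 0).r - (s k).r) := by
        rw [← neg_sub]
        exact (Associated.refl _).neg_left
      exact (hkl k 0 hk).symm.trans ((a1.trans a3).trans (a2.symm.trans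
        (hkl 0 k fun h6 => hk h6.symm)))
  refine ⟨⟨fun z N hz => (prime_of_notMem_sq h1 h2).dvd_of_dvd_pow hz, fun i j hij => ?_,
    ⟨1, ?_⟩⟩, h1, h2⟩
  · exact ⟨2, ((hkl i j (fun h6 => by rw [h6] at hij; exact lt_irrefl _ hij)).trans
      (hsq i)).dvd⟩
  · rw [pow_one]
    have h5 : (s 0).pull x ∣ (s 0).pull (qXY x y w 1) :=
      (dvd_pow_self _ two_ne_zero).trans (hkl 0 1 (by simp)).symm.dvd
    refine h5.trans ?_
    refine Dvd.dvd.trans ?_ (Finset.dvd_prod_of_mem
      (fun i => ∏ j ∈ Finset.univ.filter (fun j => i < j), (s i).pull (qXY x y w j))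
      (Finset.mem_univ (0 : Fin (m + 2))))
    exact Finset.dvd_prod_of_mem (fun j => (s 0).pull (qXY x y w j))
      (Finset.mem_filter.2 ⟨Finset.mem_univ _, Fin.zero_lt_one⟩)

end

variable {K : Type} [Field K] [CharZero K] {𝒞 : ProjClass K}

/-- Equisingularity of `∏ (y - w_k x ^ 2) = 0` in three variables. -/
theorem equi_Q (h𝒞 : HasLin 𝒞) {m : ℕ} {f x y : MvPowerSeries (Fin 3) K}
    (h : LI ![x, y]) (w : Fin (m + 2) → MvPowerSeries (Fin 3) K)
    (hw : ∀ k l, k ≠ l → IsUnit (w k - w l))
    (hf : Associated f (∏ k, (y - w k * x ^ 2))) {I : Ideal (MvPowerSeries (Fin 3) K)}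
    (hI : CurveIdeal I) (hx : x ∈ I) (hy : y ∈ I) : Equi 𝒞 1 3 f I := by
  have hf' : Associated f (∏ i, qXY x y w i) := hf
  obtain ⟨p, ht, hl⟩ := exists_lin (qXY x y w) (qXY_smooth h w)
  have hs : ∀ i, Nonempty (Sec p (qXY x y w i)) := fun i =>
    exists_sec p _ (qXY_smooth h w i).1 (ht i)
  let s : ∀ i, Sec p (qXY x y w i) := fun i => (hs i).some
  obtain ⟨hdisc, hm1, hm2⟩ := calcQ p h w hw s
  have hx' : qXY x y w 0 ∈ I :=
    Ideal.sub_mem _ hy (Ideal.mul_mem_left _ _ (Ideal.pow_mem_of_mem _ hx 2 (by norm_num)))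
  exact equi_of_disc h𝒞 p hl (fun i => (qXY_smooth h w i).1) ht hf' hx' hdisc
    (equi_pos4 (Associated.refl _) hm1 hm2 (hI.img (qXY_smooth h w 0).1 hx' (ht 0))
      ((s 0).pull_mem_img hx' hx))

/-- The kernel of `X 2 ↦ s`, `X 0, X 1 ↦ 0`. -/
theorem curveIdeal_XY {K : Type} [Field K] :
    CurveIdeal (Ideal.span {X 0, X 1} : Ideal (MvPowerSeries (Fin 3) K)) := by
  classical
  let e : Unit ↪ Fin 3 := ⟨fun _ => 2, fun _ _ _ => rfl⟩
  refine ⟨(killCompl (R := K) e : MvPowerSeries (Fin 3) K →ₐ[K] MvPowerSeries Unit K), ?_,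
    X 2, (mem_maximalIdeal_iff_constantCoeff _).2 (constantCoeff_X _), ?_⟩
  · have hI : (Ideal.span {X 0, X 1} : Ideal (MvPowerSeries (Fin 3) K)) =
        coordIdeal K (Finset.univ.erase 2) := by
      have h1 : (X '' ((Finset.univ.erase 2 : Finset (Fin 3)) : Set (Fin 3)) :
          Set (MvPowerSeries (Fin 3) K)) = {X 0, X 1} := by
        have h2 : (Finset.univ.erase 2 : Finset (Fin 3)) = {0, 1} := by decide
        rw [h2]
        simp only [Finset.coe_insert, Finset.coe_singleton, Set.image_insert_eq,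
          Set.image_singleton]
      rw [← h1]
    rw [hI]
    ext p
    have h1 := mem_coordIdeal_pow_iff (K := K) (Finset.univ.erase 2 : Finset (Fin 3)) 1 p
    rw [pow_one] at h1
    rw [h1, RingHom.mem_ker]
    constructor
    · intro h α hα
      have h2 : ∀ i ∈ (Finset.univ.erase 2 : Finset (Fin 3)), α i = 0 := by
        have h3 : (∑ i ∈ (Finset.univ.erase 2 : Finset (Fin 3)), α i) = 0 := by omega
        exact Finset.sum_eq_zero_iff.1 h3
      have h3 : α ∈ Set.range (Finsupp.embDomain (M := ℕ) e) := by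
        rw [Finsupp.mem_range_embDomain_iff]
        intro i hi
        rw [Finset.mem_coe, Finsupp.mem_support_iff] at hi
        by_contra h5
        apply hi
        apply h2 i
        rw [Finset.mem_erase]
        refine ⟨fun h6 => h5 ⟨(), h6.symm⟩, Finset.mem_univ _⟩
      obtain ⟨x, hx⟩ := h3
      have h4 := coeff_killCompl (e := e) p x
      rw [← hx, ← h4]
      have h5 : (killCompl (R := K) e) p = 0 := h
      rw [h5, map_zero]
    · intro h
      change (killCompl (R := K) e) p = 0
      refine MvPowerSeries.ext fun x => ?_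
      rw [coeff_killCompl, map_zero]
      apply h
      have h2 : (∑ i ∈ (Finset.univ.erase 2 : Finset (Fin 3)), (Finsupp.embDomain e x) i) = 0 := by
        refine Finset.sum_eq_zero fun i hi => ?_
        apply Finsupp.embDomain_of_notMem_range
        rintro ⟨j, hj⟩
        have hj' : (2 : Fin 3) = i := hj
        rw [Finset.mem_erase] at hi
        exact hi.1 hj'.symm
      omega
  · intro h
    have h1 : (killCompl (R := K) e) (X (e ())) = X () := killCompl_X ()
    have h2 : (X () : MvPowerSeries Unit K) = 0 := by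
      rw [← h1]
      exact h
    have h3 := congrArg (coeff (Finsupp.single () 1)) h2
    rw [coeff_index_single_self_X, map_zero] at h3
    exact one_ne_zero h3

theorem li_XY {K : Type} [Field K] : LI ![(X 0 : MvPowerSeries (Fin 3) K), X 1] := by
  classical
  have hX : ∀ i j : Fin 3, coeff (Finsupp.single j 1) (X i : MvPowerSeries (Fin 3) K) =
      if j = i then 1 else 0 := by
    intro i j
    rw [coeff_X]
    by_cases h : j = i
    · rw [h, if_pos rfl, if_pos rfl]
    · rw [if_neg h, if_neg]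
      intro h1
      exact h (Finsupp.single_left_injective one_ne_zero h1)
  refine ⟨fun i => ?_, ?_⟩
  · fin_cases i
    · exact constantCoeff_X _
    · exact constantCoeff_X _
  · rw [Fintype.linearIndependent_iff]
    intro g hg
    have h1 : ∀ j : Fin 3, g 0 * (if j = 0 then 1 else 0) + g 1 * (if j = 1 then 1 else 0) =
        (0 : K) := by
      intro j
      have h2 := congrFun hg j
      rw [Finset.sum_apply, Fin.sum_univ_two] at h2
      rw [← hX, ← hX]
      exact h2
    intro i
    fin_cases i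
    · simpa using h1 0
    · simpa using h1 1

end Pool.Agent.Helper49.SC
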